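import Pool.Agent.H44.DG.Targets2

/-! Module TB: invariants of the drawing game. -/

set_option autoImplicit false

namespace Pool.Agent.H74.DG.TB

open Pool.Agent.H44.DG

variable {V : Type}

theorem einv_draw {n : ℕ} {D D' : Drawing (Fin n)} (hE : EInv D) (hd : Draw D D') : EInv D' := by
  obtain ⟨u, v, huv, _, hed, Φ, Ψ, F, hr, hr', hm⟩ := hd
  intro x y hxy
  rw [hed, hr', adj_add, hm.adj, Set.mem_insert_iff, hE x y hxy, hr, adj_cons, Sym2.eq_iff]
  tauto

theorem hom_draw {n : ℕ} {D D' : Drawing (Fin n)} (hd : Draw D D') {S : Finset (Fin n)}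
    {χ : Fin n → ℕ} (hH : Hom D.regions S χ) : Hom D'.regions S χ := by
  obtain ⟨u, v, _, _, _, Φ, Ψ, F, hr, hr', hm⟩ := hd
  intro Φ' hΦ' w hw w' hw' x hx y hy hxS hyS
  rw [hr', Multiset.mem_add] at hΦ'
  rcases hΦ' with h | h
  · have hx' := (hm.corner x).1 ⟨Φ', h, w, hw, hx⟩
    have hy' := (hm.corner y).1 ⟨Φ', h, w', hw', hy⟩
    rw [inR_sing] at hx' hy'
    obtain ⟨w1, hw1, hx1⟩ := hx'
    obtain ⟨w2, hw2, hy2⟩ := hy'
    exact hH Φ (by rw [hr]; exact Multiset.mem_cons_self _ _) w1 hw1 w2 hw2 x hx1 y hy2 hxS hyS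
  · exact hH Φ' (by rw [hr]; exact Multiset.mem_cons_of_mem h) w hw w' hw' x hx y hy hxS hyS

theorem mem_sum' {w : Cycle V} {F : Multiset (Region V)} : w ∈ F.sum ↔ ∃ Φ ∈ F, w ∈ Φ :=
  Multiset.mem_join

/-- the isolated points in terms of all walks -/
theorem iso_iff {F : Multiset (Region V)} : Iso F ↔
    ∀ (v : V) (W : Multiset (Cycle V)), F.sum = (↑[v] : Cycle V) ::ₘ W → ∀ w ∈ W, v ∉ w := by
  constructor
  · intro h v W hW w hw hv
    have hmem : (↑[v] : Cycle V) ∈ F.sum := by rw [hW]; exact Multiset.mem_cons_self _ _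
    obtain ⟨Φ, hΦ, hvΦ⟩ := mem_sum'.1 hmem
    obtain ⟨G, rfl⟩ := Multiset.exists_cons_of_mem hΦ
    obtain ⟨R, rfl⟩ := Multiset.exists_cons_of_mem hvΦ
    obtain ⟨h1, h2⟩ := h _ G v R rfl rfl
    rw [Multiset.sum_cons, Multiset.cons_add, Multiset.cons_inj_right] at hW
    rw [← hW, Multiset.mem_add] at hw
    rcases hw with hw | hw
    · exact h2 (inR_sing.2 ⟨w, hw, hv⟩)
    · obtain ⟨Φ', hΦ', hw'⟩ := mem_sum'.1 hw
      exact h1 ⟨Φ', hΦ', w, hw', hv⟩
  · intro h Φ G v R hF hΦ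
    subst hΦ
    have h1 := h v (R + G.sum) (by rw [hF, Multiset.sum_cons, Multiset.cons_add])
    refine ⟨?_, ?_⟩
    · rintro ⟨Φ', hΦ', w, hw, hv⟩
      exact h1 w (Multiset.mem_add.2 (Or.inr (mem_sum'.2 ⟨Φ', hΦ', hw⟩))) hv
    · rw [inR_sing]
      rintro ⟨w, hw, hv⟩
      exact h1 w (Multiset.mem_add.2 (Or.inl hw)) hv

theorem single_ne {x a b : V} {l : List V} : (↑(a :: b :: l) : Cycle V) ≠ ↑[x] := by
  intro h
  have := (Cycle.coe_eq_coe.1 h).perm.length_eq
  simp at this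

theorem single_ne_join {x u v : V} {l m : List V} : (↑(joinWalk u l v m) : Cycle V) ≠ ↑[x] :=
  single_ne

theorem iso_draw {D D' : Drawing V} (hd : Draw D D') (hI : Iso D.regions) : Iso D'.regions := by
  obtain ⟨u, v, _, _, _, Φ, Ψ, F, hr, hr', hm⟩ := hd
  rw [iso_iff] at hI ⊢
  intro x W hW
  rw [hr'] at hW
  rw [hr] at hI
  cases hm with
  | join l m R =>
    rw [Multiset.sum_add, Multiset.sum_singleton, Multiset.cons_add, Multiset.cons_eq_cons] at hW
    rcases hW with ⟨h1, _⟩ | ⟨_, T, h1, h2⟩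
    · exact absurd h1 single_ne_join
    · have h3 := hI x ((↑(u :: l) : Cycle V) ::ₘ (↑(v :: m) : Cycle V) ::ₘ T) (by
        rw [Multiset.sum_cons, Multiset.cons_add, Multiset.cons_add, h1,
          Multiset.cons_swap (↑(v :: m) : Cycle V), Multiset.cons_swap (↑(u :: l) : Cycle V)])
      have hu := h3 _ (Multiset.mem_cons_self _ _)
      have hv := h3 _ (Multiset.mem_cons_of_mem (Multiset.mem_cons_self _ _))
      intro w hw
      rw [h2, Multiset.mem_cons] at hw
      rcases hw with rfl | hw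
      · rw [Cycle.mem_coe_iff, joinWalk_mem]
        rintro (h | h)
        · exact hu h
        · exact hv h
      · exact h3 w (Multiset.mem_cons_of_mem (Multiset.mem_cons_of_mem hw))
  | split l m R₁ R₂ =>
    have hs : (({(↑(u :: (l ++ [v])) : Cycle V) ::ₘ R₁, (↑(v :: (m ++ [u])) : Cycle V) ::ₘ R₂} :
        Multiset (Region V)) + F).sum = (↑(u :: (l ++ [v])) : Cycle V) ::ₘ
        (↑(v :: (m ++ [u])) : Cycle V) ::ₘ (R₁ + R₂ + F.sum) := by
      rw [Multiset.sum_add, Multiset.insert_eq_cons, Multiset.sum_cons, Multiset.sum_singleton,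
        Multiset.cons_add, Multiset.add_cons, Multiset.cons_add, Multiset.cons_add]
    rw [hs, Multiset.cons_eq_cons] at hW
    have hne : ∀ (a b : V) (t : List V), (↑(a :: (t ++ [b])) : Cycle V) ≠ ↑[x] := by
      intro a b t h
      have := (Cycle.coe_eq_coe.1 h).perm.length_eq
      simp at this
    rcases hW with ⟨h1, _⟩ | ⟨_, T, h1, h2⟩
    · exact absurd h1 (hne _ _ _)
    · rw [Multiset.cons_eq_cons] at h1
      rcases h1 with ⟨h1, _⟩ | ⟨_, T', h1, h3⟩
      · exact absurd h1 (hne _ _ _)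
      · have h4 := hI x ((↑(u :: (l ++ v :: m)) : Cycle V) ::ₘ T') (by
          rw [Multiset.sum_cons, Multiset.cons_add, h1, Multiset.cons_swap])
        have hu := h4 _ (Multiset.mem_cons_self _ _)
        rw [Cycle.mem_coe_iff] at hu
        simp only [List.mem_cons, List.mem_append, not_or] at hu
        intro w hw
        rw [h2, h3, Multiset.mem_cons, Multiset.mem_cons] at hw
        rcases hw with rfl | rfl | hw
        · rw [Cycle.mem_coe_iff]
          simp only [List.mem_cons, List.mem_append, List.not_mem_nil, or_false, not_or]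
          tauto
        · rw [Cycle.mem_coe_iff]
          simp only [List.mem_cons, List.mem_append, List.not_mem_nil, or_false, not_or]
          tauto
        · exact h4 w (Multiset.mem_cons_of_mem hw)

theorem pf_TB : T_TB := fun _ _ _ hE hd =>
  ⟨einv_draw hE hd, iso_draw hd, fun _ _ hH => hom_draw hd hH⟩

end Pool.Agent.H74.DG.TB
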