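import Pool.Agent.H69.DG.TD
import Pool.Agent.H74.DG.TB

/-! Module TE: the opening of the `1 : 2` game. -/

set_option autoImplicit false

namespace Pool.Agent.H74.DG.TE

open Pool.Agent.H44.DG Pool.Agent.H69.DG.TD

variable {n : ℕ}

theorem good_const {D : Drawing (Fin n)} {S : Finset (Fin n)} {d : ℕ} (hE : EInv D)
    (hI : Iso D.regions) {p : Fin n} (hp : p ∉ S) (hS : S.card ≤ d) :
    Good D S (fun _ => 0) d := by
  refine ⟨hE, hI, fun _ _ _ _ _ _ _ _ _ _ _ _ => rfl, ?_⟩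
  have : 0 < (colors S (fun _ => 0)).card :=
    Finset.card_pos.2 ⟨0, Finset.mem_image.2 ⟨p, by simpa using hp, rfl⟩⟩
  omega

theorem q1_mono {M : ℕ} {D : Drawing (Fin n)} (h : Q1 2 M D) : Q1 3 M D := by
  obtain ⟨hE, hI, S, χ, Φ, G, h1, h2, h3, h4⟩ := h
  exact ⟨hE, hI, S, χ, Φ, G, h1, h2, by omega, h4⟩

theorem iso_out {F G : Multiset (Region (Fin n))} {w : Cycle (Fin n)} {Q : Multiset (Fin n)}
    {J : Region (Fin n)} (hI : Iso F) (hF : F = (w ::ₘ (ip Q + J)) ::ₘ G) {v : Fin n}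
    (hv : v ∈ Q) : v ∉ w ∧ ∀ w' ∈ J, v ∉ w' := by
  obtain ⟨Q', rfl⟩ := Multiset.exists_cons_of_mem hv
  have h := (hI _ G v (w ::ₘ (ip Q' + J)) hF (by
    rw [ip_cons, Multiset.cons_add, Multiset.cons_swap])).2
  refine ⟨fun hvw => h (inR_sing.2 ⟨w, Multiset.mem_cons_self _ _, hvw⟩), fun w' hw' hv' =>
    h (inR_sing.2 ⟨w', Multiset.mem_cons_of_mem (Multiset.mem_add.2 (Or.inr hw')), hv'⟩)⟩

theorem ip_cons_add {P : Multiset (Fin n)} {J fl : Region (Fin n)} {w : Cycle (Fin n)}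
    (h : ip P + J = w ::ₘ fl) :
    (∃ p P', P = p ::ₘ P' ∧ w = ↑[p] ∧ fl = ip P' + J) ∨ (∃ J', J = w ::ₘ J' ∧ fl = ip P + J') := by
  have hmem : w ∈ ip P + J := by rw [h]; exact Multiset.mem_cons_self _ _
  rcases Multiset.mem_add.1 hmem with hm | hm
  · obtain ⟨p, hp, rfl⟩ := mem_ip.1 hm
    obtain ⟨P', rfl⟩ := Multiset.exists_cons_of_mem hp
    rw [ip_cons, Multiset.cons_add] at h
    exact Or.inl ⟨p, P', rfl, rfl, ((Multiset.cons_inj_right _).1 h).symm⟩
  · obtain ⟨J', rfl⟩ := Multiset.exists_cons_of_mem hm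
    rw [Multiset.add_cons] at h
    exact Or.inr ⟨J', rfl, ((Multiset.cons_inj_right _).1 h).symm⟩

theorem ip_add_split {P : Multiset (Fin n)} : ∀ {J f g : Region (Fin n)}, ip P + J = f + g →
    ∃ Q₁ Q₂ J₁ J₂, P = Q₁ + Q₂ ∧ f = ip Q₁ + J₁ ∧ g = ip Q₂ + J₂ := by
  induction P using Multiset.induction with
  | empty =>
    intro J f g _
    exact ⟨0, 0, f, g, by simp, by simp, by simp⟩
  | cons v P ih =>
    intro J f g h
    rw [ip_cons, Multiset.cons_add] at h
    have hmem : (↑[v] : Cycle (Fin n)) ∈ f + g := by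
      rw [← h]; exact Multiset.mem_cons_self _ _
    rcases Multiset.mem_add.1 hmem with hm | hm
    · obtain ⟨f', rfl⟩ := Multiset.exists_cons_of_mem hm
      rw [Multiset.cons_add] at h
      obtain ⟨Q₁, Q₂, J₁, J₂, h1, h2, h3⟩ := ih ((Multiset.cons_inj_right _).1 h)
      exact ⟨v ::ₘ Q₁, Q₂, J₁, J₂, by rw [h1, Multiset.cons_add],
        by rw [h2, ip_cons, Multiset.cons_add], h3⟩
    · obtain ⟨g', rfl⟩ := Multiset.exists_cons_of_mem hm
      rw [Multiset.add_cons] at h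
      obtain ⟨Q₁, Q₂, J₁, J₂, h1, h2, h3⟩ := ih ((Multiset.cons_inj_right _).1 h)
      exact ⟨Q₁, v ::ₘ Q₂, J₁, J₂, by rw [h1, Multiset.add_cons], h2,
        by rw [h3, ip_cons, Multiset.cons_add]⟩

/-- Two chords, each of which cuts off a triangle. -/
theorem two_chords (hB : T_TB) {M : ℕ}
    (hwin : ∀ D : Drawing (Fin n), Q1 3 M D → Wins 1 2 .spoiler NotHam (.spoiler, 2) D)
    {D : Drawing (Fin n)} (hE : EInv D) (hI : Iso D.regions) {S : Finset (Fin n)}
    (hS : S.card ≤ 4) {a b c d e f : Fin n} {Q Q' : List (Fin n)} {P : Multiset (Fin n)}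
    {J : Region (Fin n)}
    (hreg : D.regions = {(↑(a :: b :: c :: Q) : Cycle (Fin n)) ::ₘ (ip P + J)})
    (hU : (↑(c :: (Q ++ [a])) : Cycle (Fin n)) = ↑(d :: e :: f :: Q'))
    (ha : a ∈ S) (hb : b ∈ S) (hc : c ∈ S) (hd : d ∈ S) (he : e ∈ S) (hf : f ∈ S)
    (hab : a ≠ b) (hbc : b ≠ c) (hca : c ≠ a) (hde : d ≠ e) (hef : e ≠ f) (hfd : f ≠ d)
    (h1 : ¬ Adj D.regions a c) (h2 : ¬ Adj D.regions d f) (h3 : ¬ (d = a ∧ f = c))
    (h4 : ¬ (d = c ∧ f = a)) (hP : ∀ p ∈ P, p ∉ S) (hcard : 2 * M + 5 ≤ P.card) :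
    Wins 1 2 .spoiler NotHam (.spoiler, 2) D := by
  have hwin2 : ∀ D : Drawing (Fin n), Q1 2 M D → Wins 1 2 .spoiler NotHam (.spoiler, 2) D :=
    fun D h => hwin D (q1_mono h)
  obtain ⟨P₁, P₂, rfl, hc1, hc2⟩ := split_at P (M + 2) (by omega)
  obtain ⟨P₃, P₄, rfl, hc3, hc4⟩ := split_at P₂ (M + 2) (by omega)
  obtain ⟨p0, hp0⟩ := Multiset.card_pos_iff_exists_mem.1 (show 0 < P₁.card by omega)
  have hP1 : P₁ ≠ 0 := by rintro rfl; simp at hp0
  have hP3 : P₃ ≠ 0 := by rintro rfl; simp at hc3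
  have hP4 : P₄ ≠ 0 := by
    rintro rfl
    simp only [Multiset.card_zero, Multiset.card_add] at *
    omega
  have hP34 : P₃ + P₄ ≠ 0 := by
    intro h
    rw [add_eq_zero] at h
    exact hP3 h.1
  have hG : Good D S (fun _ => 0) (3 + 1) :=
    good_const hE hI (hP p0 (Multiset.mem_add.2 (Or.inl hp0))) hS
  obtain ⟨D', χ', hd', hr', hG'⟩ := chord hB (F := 0) hG hreg ha hb hc hca.symm h1 hP1 hP34 hP
  refine Wins.own 1 D D' hd' ?_
  show Wins 1 2 .spoiler NotHam (.spoiler, 1) D'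
  -- adjacency
  have hm : RegionMove a c ((↑(a :: b :: c :: Q) : Cycle (Fin n)) ::ₘ (ip (P₁ + (P₃ + P₄)) + J))
      {(↑[a, b, c] : Cycle (Fin n)) ::ₘ ip P₁,
        (↑(c :: (Q ++ [a])) : Cycle (Fin n)) ::ₘ (ip (P₃ + P₄) + J)} := by
    have := RegionMove.split (u := a) (v := c) [b] Q (ip P₁) (ip (P₃ + P₄) + J)
    rw [← add_assoc, ← ip_add] at this
    exact this
  have hna : ¬ Adj D'.regions d f := by
    have hr2 : D'.regions = {(↑[a, b, c] : Cycle (Fin n)) ::ₘ ip P₁,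
        (↑(c :: (Q ++ [a])) : Cycle (Fin n)) ::ₘ (ip (P₃ + P₄) + J)} := hr'
    rw [hr2, hm.adj]
    rw [hreg] at h2
    tauto
  have hr3 : D'.regions = ((↑(d :: e :: f :: Q') : Cycle (Fin n)) ::ₘ (ip (P₃ + P₄) + J)) ::ₘ
      {(↑[a, b, c] : Cycle (Fin n)) ::ₘ ip P₁} := by
    rw [hr', hU]
    exact Multiset.cons_swap _ _ _
  obtain ⟨D'', χ'', hd'', hr'', hG''⟩ := chord hB (d := 2) hG' hr3 hd he hf hfd.symm hna hP3 hP4
    (fun p hp => hP p (Multiset.mem_add.2 (Or.inr hp)))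
  refine Wins.own 0 D' D'' hd'' ?_
  show Wins 1 2 .spoiler NotHam (.builder, 1) D''
  have hr4 : D''.regions = ((↑[d, e, f] : Cycle (Fin n)) ::ₘ ip P₃) ::ₘ
      ((↑[a, b, c] : Cycle (Fin n)) ::ₘ ip P₁) ::ₘ
      {(↑(f :: (Q' ++ [d])) : Cycle (Fin n)) ::ₘ (ip P₄ + J)} := by
    rw [hr'']
    congr 1
    exact Multiset.cons_swap _ _ _
  refine tb2 hB hwin2 hG'' hr4 ?_ ?_
  · exact ⟨d, e, f, P₃, 0, hd, he, hf, hde, hef, hfd, by rw [add_zero]; rfl, by omega,
      fun p hp => hP p (Multiset.mem_add.2 (Or.inr (Multiset.mem_add.2 (Or.inl hp))))⟩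
  · exact ⟨a, b, c, P₁, 0, ha, hb, hc, hab, hbc, hca, by rw [add_zero]; rfl, by omega,
      fun p hp => hP p (Multiset.mem_add.2 (Or.inl hp))⟩

theorem card4 (x y z v : Fin n) : ({x, y, z, v} : Finset (Fin n)).card ≤ 4 :=
  Finset.card_le_four

theorem caseX (hB : T_TB) {M : ℕ}
    (hwin : ∀ D : Drawing (Fin n), Q1 3 M D → Wins 1 2 .spoiler NotHam (.spoiler, 2) D)
    {D : Drawing (Fin n)} (hE : EInv D) (hI : Iso D.regions) {x y z v : Fin n}
    {m : List (Fin n)} {P : Multiset (Fin n)} {J : Region (Fin n)}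
    (hreg : D.regions = {(↑(joinWalk x [y, z, y] v m) : Cycle (Fin n)) ::ₘ (ip P + J)})
    (hxy : x ≠ y) (hyz : y ≠ z) (hxz : x ≠ z) (hvx : v ≠ x) (hvz : v ≠ z)
    (h1 : ¬ Adj D.regions x z) (h2 : ¬ Adj D.regions v z) (hcard : 2 * M + 5 ≤ P.card) :
    Wins 1 2 .spoiler NotHam (.spoiler, 2) D := by
  have hP : ∀ p ∈ P, p ∉ ({x, y, z, v} : Finset (Fin n)) := by
    intro p hp hpS
    have := (iso_out (G := 0) hI hreg hp).1
    rw [Cycle.mem_coe_iff, joinWalk_mem] at this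
    simp only [List.mem_cons, List.not_mem_nil, or_false, not_or] at this
    simp only [Finset.mem_insert, Finset.mem_singleton] at hpS
    tauto
  by_cases hm : m = []
  · subst hm
    have hw : (↑(joinWalk x [y, z, y] v []) : Cycle (Fin n)) = ↑(x :: y :: z :: [y, x, v]) := by
      have := coe_rot [x, v] [x, y, z, y]
      simpa [joinWalk] using this
    rw [hw] at hreg
    have hU : (↑(z :: ([y, x, v] ++ [x])) : Cycle (Fin n)) = ↑(v :: x :: z :: [y, x]) := by
      have := coe_rot [z, y, x] [v, x]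
      simpa using this
    exact two_chords hB hwin hE hI (card4 x y z v) hreg hU (by simp) (by simp) (by simp) (by simp)
      (by simp) (by simp) hxy hyz hxz.symm hvx hxz hvz.symm h1 h2 (fun h => hvx h.1)
      (fun h => hvz h.1) hP hcard
  · have hw : (↑(joinWalk x [y, z, y] v m) : Cycle (Fin n)) =
        ↑(x :: y :: z :: (y :: x :: v :: (m ++ [v]))) := by
      have := coe_rot (x :: v :: (m ++ [v])) [x, y, z, y]
      simpa [joinWalk, hm] using this
    rw [hw] at hreg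
    have hU : (↑(z :: ((y :: x :: v :: (m ++ [v])) ++ [x])) : Cycle (Fin n)) =
        ↑(v :: x :: z :: (y :: x :: v :: m)) := by
      have := coe_rot (z :: y :: x :: v :: m) [v, x]
      simpa using this
    exact two_chords hB hwin hE hI (card4 x y z v) hreg hU (by simp) (by simp) (by simp) (by simp)
      (by simp) (by simp) hxy hyz hxz.symm hvx hxz hvz.symm h1 h2 (fun h => hvx h.1)
      (fun h => hvz h.1) hP hcard

theorem caseY (hB : T_TB) {M : ℕ}
    (hwin : ∀ D : Drawing (Fin n), Q1 3 M D → Wins 1 2 .spoiler NotHam (.spoiler, 2) D)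
    {D : Drawing (Fin n)} (hE : EInv D) (hI : Iso D.regions) {x y z v : Fin n}
    {m : List (Fin n)} {P : Multiset (Fin n)} {J : Region (Fin n)}
    (hreg : D.regions = {(↑(joinWalk y [x, y, z] v m) : Cycle (Fin n)) ::ₘ (ip P + J)})
    (hxy : x ≠ y) (hyz : y ≠ z) (hxz : x ≠ z) (hvx : v ≠ x) (hvy : v ≠ y) (hvz : v ≠ z)
    (h1 : ¬ Adj D.regions x z) (h2 : ¬ Adj D.regions z v) (hcard : 2 * M + 5 ≤ P.card) :
    Wins 1 2 .spoiler NotHam (.spoiler, 2) D := by
  have hP : ∀ p ∈ P, p ∉ ({x, y, z, v} : Finset (Fin n)) := by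
    intro p hp hpS
    have := (iso_out (G := 0) hI hreg hp).1
    rw [Cycle.mem_coe_iff, joinWalk_mem] at this
    simp only [List.mem_cons, List.not_mem_nil, or_false, not_or] at this
    simp only [Finset.mem_insert, Finset.mem_singleton] at hpS
    tauto
  have hw : (↑(joinWalk y [x, y, z] v m) : Cycle (Fin n)) =
      ↑(x :: y :: z :: (y :: v :: (m ++ (if m = [] then [] else [v]) ++ [y]))) := by
    have := coe_rot (y :: v :: (m ++ (if m = [] then [] else [v]) ++ [y])) [x, y, z]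
    simpa [joinWalk] using this
  rw [hw] at hreg
  exact two_chords hB hwin hE hI (card4 x y z v) hreg (d := z) (e := y) (f := v)
    (Q' := (m ++ (if m = [] then [] else [v]) ++ [y]) ++ [x]) (by simp) (by simp) (by simp)
    (by simp) (by simp) (by simp) (by simp) hxy hyz hxz.symm hyz.symm hvy.symm hvz h1 h2
    (fun h => hxz h.1.symm) (fun h => hvx h.2) hP hcard

/-- The position after the first move of Spoiler. -/
structure SB (D : Drawing (Fin n)) (x y z : Fin n) (P : Multiset (Fin n))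
    (J : Region (Fin n)) : Prop where
  e : EInv D
  i : Iso D.regions
  reg : D.regions = {(↑[x, y, z, y] : Cycle (Fin n)) ::ₘ (ip P + J)}
  xy : x ≠ y
  yz : y ≠ z
  xz : x ≠ z
  out : ∀ w ∈ ip P + J, x ∉ w ∧ y ∉ w ∧ z ∉ w
  two : ∀ w ∈ J, ∃ p q : Fin n, w = (↑[p, q] : Cycle (Fin n))

theorem SB.nadj {D : Drawing (Fin n)} {x y z : Fin n} {P : Multiset (Fin n)}
    {J : Region (Fin n)} (h : SB D x y z P J) {w : Cycle (Fin n)} (hw : w ∈ ip P + J) {v : Fin n}
    (hv : v ∈ w) : ¬ Adj D.regions v x ∧ ¬ Adj D.regions v y ∧ ¬ Adj D.regions v z := by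
  have hvx : v ≠ x := fun he => (h.out w hw).1 (he ▸ hv)
  have hvy : v ≠ y := fun he => (h.out w hw).2.1 (he ▸ hv)
  have hvz : v ≠ z := fun he => (h.out w hw).2.2 (he ▸ hv)
  have key : ∀ t, (t = x ∨ t = y ∨ t = z) → ¬ Adj D.regions v t := by
    intro t ht
    rw [h.reg, adj_sing]
    rintro ⟨w', hw', hd⟩
    have hv' : v ∈ w' := hd.elim IsDart.mem_left IsDart.mem_right
    have ht' : t ∈ w' := hd.elim IsDart.mem_right IsDart.mem_left
    rcases Multiset.mem_cons.1 hw' with rfl | hw'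
    · simp only [Cycle.mem_coe_iff, List.mem_cons, List.not_mem_nil, or_false] at hv'
      tauto
    · have := h.out w' hw'
      rcases ht with rfl | rfl | rfl
      · exact this.1 ht'
      · exact this.2.1 ht'
      · exact this.2.2 ht'
  exact ⟨key x (Or.inl rfl), key y (Or.inr (Or.inl rfl)), key z (Or.inr (Or.inr rfl))⟩

theorem SB.nxz {D : Drawing (Fin n)} {x y z : Fin n} {P : Multiset (Fin n)}
    {J : Region (Fin n)} (h : SB D x y z P J) : ¬ Adj D.regions x z := by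
  rw [h.reg, adj_sing]
  rintro ⟨w', hw', hd⟩
  rcases Multiset.mem_cons.1 hw' with rfl | hw'
  · have h1 := h.xy
    have h2 := h.yz
    have h3 := h.xz
    rcases hd with hd | hd
    · rw [isDart_coe] at hd
      simp only [cprs_cons_cons, List.cons_append, List.nil_append, prs_cons_cons, prs_single,
        List.mem_cons, Prod.mk.injEq, List.not_mem_nil, or_false] at hd
      tauto
    · rw [isDart_coe] at hd
      simp only [cprs_cons_cons, List.cons_append, List.nil_append, prs_cons_cons, prs_single,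
        List.mem_cons, Prod.mk.injEq, List.not_mem_nil, or_false] at hd
      tauto
  · exact (h.out w' hw').1 (hd.elim IsDart.mem_left IsDart.mem_right)

theorem SB.axy {D : Drawing (Fin n)} {x y z : Fin n} {P : Multiset (Fin n)}
    {J : Region (Fin n)} (h : SB D x y z P J) : Adj D.regions x y ∧ Adj D.regions y z := by
  rw [h.reg, adj_sing, adj_sing]
  refine ⟨⟨_, Multiset.mem_cons_self _ _, Or.inl ⟨[z, y], rfl⟩⟩,
    ⟨_, Multiset.mem_cons_self _ _, Or.inl ⟨[y, x], coe_rot [x] [y, z, y]⟩⟩⟩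

/-- symmetry -/
theorem SB.symm {D : Drawing (Fin n)} {x y z : Fin n} {P : Multiset (Fin n)}
    {J : Region (Fin n)} (h : SB D x y z P J) : SB D z y x P J where
  e := h.e
  i := h.i
  reg := by
    have : (↑[x, y, z, y] : Cycle (Fin n)) = ↑[z, y, x, y] := coe_rot [x, y] [z, y]
    rw [h.reg, this]
  xy := h.yz.symm
  yz := h.xy.symm
  xz := h.xz.symm
  out := fun w hw => ⟨(h.out w hw).2.2, (h.out w hw).2.1, (h.out w hw).1⟩
  two := h.two

/-- Builder draws the chord. -/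
theorem SB.split (hB : T_TB) {M : ℕ} {D D' : Drawing (Fin n)} {x y z : Fin n}
    {P : Multiset (Fin n)} {J fl₁ fl₂ : Region (Fin n)} (h : SB D x y z P J) (hd : Draw D D')
    (hfl : ip P + J = fl₁ + fl₂)
    (hr : D'.regions = {(↑[x, y, z] : Cycle (Fin n)) ::ₘ fl₁, (↑[z, y, x] : Cycle (Fin n)) ::ₘ fl₂})
    (hc : 2 * M + 2 ≤ P.card) : Q1 3 M D' := by
  obtain ⟨Q₁, Q₂, J₁, J₂, rfl, rfl, rfl⟩ := ip_add_split hfl
  rw [Multiset.card_add] at hc
  have hE := (hB n D D' h.e hd).1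
  have hI := (hB n D D' h.e hd).2.1 h.i
  have hPS : ∀ p ∈ Q₁ + Q₂, p ∉ ({x, y, z} : Finset (Fin n)) := by
    intro p hp hpS
    have := h.out ↑[p] (Multiset.mem_add.2 (Or.inl (mem_ip.2 ⟨p, hp, rfl⟩)))
    simp only [Cycle.mem_coe_iff, List.mem_cons, List.not_mem_nil, or_false] at this
    simp only [Finset.mem_insert, Finset.mem_singleton] at hpS
    rcases hpS with rfl | rfl | rfl <;> simp at this
  have hcard : ({x, y, z} : Finset (Fin n)).card ≤ 3 := Finset.card_le_three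
  obtain ⟨p0, hp0⟩ := Multiset.card_pos_iff_exists_mem.1
    (show 0 < (Q₁ + Q₂).card by rw [Multiset.card_add]; omega)
  have hG : Good D' ({x, y, z} : Finset (Fin n)) (fun _ => 0) 3 :=
    good_const hE hI (hPS p0 hp0) hcard
  refine ⟨hE, hI, {x, y, z}, fun _ => 0, ?_⟩
  rcases le_total Q₂.card Q₁.card with hle | hle
  · refine ⟨_, _, hr, hG.h, hG.c, x, y, z, Q₁, J₁, by simp, by simp, by simp, h.xy, h.yz,
      h.xz.symm, rfl, by omega, fun p hp => hPS p (Multiset.mem_add.2 (Or.inl hp))⟩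
  · refine ⟨_, {(↑[x, y, z] : Cycle (Fin n)) ::ₘ (ip Q₁ + J₁)}, ?_, hG.h, hG.c, z, y, x, Q₂, J₂,
      by simp, by simp, by simp, h.yz.symm, h.xy.symm, h.xz, rfl, by omega,
      fun p hp => hPS p (Multiset.mem_add.2 (Or.inr hp))⟩
    rw [hr]
    exact Multiset.cons_swap _ _ _

/-- The answer of Spoiler if Builder joins the path with another component. -/
theorem SB.join (hB : T_TB) {M : ℕ}
    (hwin : ∀ D : Drawing (Fin n), Q1 3 M D → Wins 1 2 .spoiler NotHam (.spoiler, 2) D)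
    {D D' : Drawing (Fin n)} {x y z : Fin n}
    {P : Multiset (Fin n)} {J : Region (Fin n)} (h : SB D x y z P J) (hd : Draw D D')
    {u v : Fin n} {l m : List (Fin n)} {fl : Region (Fin n)}
    (hX : (↑[x, y, z, y] : Cycle (Fin n)) = ↑(u :: l))
    (hfl : ip P + J = (↑(v :: m) : Cycle (Fin n)) ::ₘ fl)
    (hr : D'.regions = {(↑(joinWalk u l v m) : Cycle (Fin n)) ::ₘ fl})
    (hadj : ∀ a b, Adj D'.regions a b ↔ Adj D.regions a b ∨ (a = u ∧ b = v) ∨ (a = v ∧ b = u))
    (hc : 2 * M + 6 ≤ P.card) : Wins 1 2 .spoiler NotHam (.spoiler, 2) D' := by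
  have hE := (hB n D D' h.e hd).1
  have hI := (hB n D D' h.e hd).2.1 h.i
  have hvm : (↑(v :: m) : Cycle (Fin n)) ∈ ip P + J := by
    rw [hfl]; exact Multiset.mem_cons_self _ _
  have hv : v ∈ (↑(v :: m) : Cycle (Fin n)) := by simp
  obtain ⟨nx, ny, nz⟩ := h.nadj hvm hv
  have hvx : v ≠ x := fun he => (h.out _ hvm).1 (he ▸ hv)
  have hvy : v ≠ y := fun he => (h.out _ hvm).2.1 (he ▸ hv)
  have hvz : v ≠ z := fun he => (h.out _ hvm).2.2 (he ▸ hv)
  have hxy := h.xy
  have hyz := h.yz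
  have hxz := h.xz
  have hnxz := h.nxz
  have hnzx : ¬ Adj D.regions z x := fun h => hnxz h.symm
  have nxv : ¬ Adj D.regions x v := fun h => nx h.symm
  have nzv : ¬ Adj D.regions z v := fun h => nz h.symm
  obtain ⟨P', J', hfl', hc'⟩ : ∃ P' J', fl = ip P' + J' ∧ P.card ≤ P'.card + 1 := by
    rcases ip_cons_add hfl with ⟨p, P', rfl, -, h1⟩ | ⟨J', -, h1⟩
    · exact ⟨P', J, h1, by simp⟩
    · exact ⟨P, J', h1, by simp⟩
  rw [hfl'] at hr
  have hcard : 2 * M + 5 ≤ P'.card := by omega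
  rcases rot4 hX with ⟨rfl, rfl⟩ | ⟨rfl, rfl⟩ | ⟨rfl, rfl⟩ | ⟨rfl, rfl⟩
  · refine caseX hB hwin hE hI hr hxy hyz hxz hvx hvz ?_ ?_ hcard
    · rw [hadj]; tauto
    · rw [hadj]; tauto
  · refine caseY hB hwin hE hI hr hyz.symm hxy.symm hxz.symm hvz hvy hvx ?_ ?_ hcard
    · rw [hadj]; tauto
    · rw [hadj]; tauto
  · refine caseX hB hwin hE hI hr hyz.symm hxy.symm hxz.symm hvz hvx ?_ ?_ hcard
    · rw [hadj]; tauto
    · rw [hadj]; tauto
  · refine caseY hB hwin hE hI hr hxy hyz hxz hvx hvy hvz ?_ ?_ hcard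
    · rw [hadj]; tauto
    · rw [hadj]; tauto

/-- The position after the first move of Spoiler is won. -/
theorem SB.win (hINV : T_INV) (hB : T_TB) {M : ℕ}
    (hwin : ∀ D : Drawing (Fin n), Q1 3 M D → Wins 1 2 .spoiler NotHam (.spoiler, 2) D)
    {D : Drawing (Fin n)} {x y z : Fin n}
    {P : Multiset (Fin n)} {J : Region (Fin n)} (h : SB D x y z P J)
    (hc : 2 * M + 10 ≤ P.card) : Wins 1 2 .spoiler NotHam (.builder, 1) D := by
  have hwin2 : ∀ D : Drawing (Fin n), Q1 2 M D → Wins 1 2 .spoiler NotHam (.spoiler, 2) D :=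
    fun D h => hwin D (q1_mono h)
  refine Wins.opp .builder (by decide) 0 D ?_ ?_
  · exact exists_move (P := P) (F := 0) h.e h.i h.reg (by omega)
  · intro D' hd
    show Wins 1 2 .spoiler NotHam (.spoiler, 2) D'
    have hE := (hB n D D' h.e hd).1
    have hI := (hB n D D' h.e hd).2.1 h.i
    have hd0 := hd
    obtain ⟨u, v, huv, hnot, hed, Φ, Ψ, F, hr, hr', hm⟩ := hd
    have hnadj : ¬ Adj D.regions u v := fun ha => hnot ((h.e u v huv).2 ha)
    have hΦ : Φ = (↑[x, y, z, y] : Cycle (Fin n)) ::ₘ (ip P + J) ∧ F = 0 := by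
      rw [h.reg, Multiset.singleton_eq_cons_iff] at hr
      exact ⟨hr.1.symm, hr.2⟩
    obtain ⟨rfl, rfl⟩ := hΦ
    rw [add_zero] at hr'
    have hadj : ∀ a b, Adj D'.regions a b ↔ Adj D.regions a b ∨ (a = u ∧ b = v) ∨
        (a = v ∧ b = u) := by
      intro a b
      rw [hr', hm.adj, h.reg]
    rcases hINV (Fin n) _ _ u v Ψ hm with ⟨l, m, fl₁, fl₂, hX, hfl, rfl⟩ |
      ⟨u', v', l, m, fl', huv', hX, hfl, rfl⟩ | ⟨l, m, fl', hfl, rfl⟩ | ⟨l, m, hmem⟩
    · -- the chord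
      refine hwin D' ?_
      have hcase : (u = x ∧ v = z ∧ l = [y] ∧ m = [y]) ∨ (u = z ∧ v = x ∧ l = [y] ∧ m = [y]) := by
        have h1 := h.axy.1
        have h2 := h.axy.2
        have h1' := h1.symm
        have h2' := h2.symm
        rcases rot4 hX with ⟨rfl, h3⟩ | ⟨rfl, h3⟩ | ⟨rfl, h3⟩ | ⟨rfl, h3⟩
        · rcases split3 h3 with ⟨rfl, rfl, rfl⟩ | ⟨rfl, rfl, rfl⟩ | ⟨rfl, rfl, rfl⟩
          · exact absurd h1 hnadj
          · exact Or.inl ⟨rfl, rfl, rfl, rfl⟩
          · exact absurd h1 hnadj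
        · rcases split3 h3 with ⟨rfl, rfl, rfl⟩ | ⟨rfl, rfl, rfl⟩ | ⟨rfl, rfl, rfl⟩
          · exact absurd h2 hnadj
          · exact absurd rfl huv
          · exact absurd h1' hnadj
        · rcases split3 h3 with ⟨rfl, rfl, rfl⟩ | ⟨rfl, rfl, rfl⟩ | ⟨rfl, rfl, rfl⟩
          · exact absurd h2' hnadj
          · exact Or.inr ⟨rfl, rfl, rfl, rfl⟩
          · exact absurd h2' hnadj
        · rcases split3 h3 with ⟨rfl, rfl, rfl⟩ | ⟨rfl, rfl, rfl⟩ | ⟨rfl, rfl, rfl⟩
          · exact absurd h1' hnadj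
          · exact absurd rfl huv
          · exact absurd h2 hnadj
      rcases hcase with ⟨rfl, rfl, rfl, rfl⟩ | ⟨rfl, rfl, rfl, rfl⟩
      · exact h.split hB hd0 hfl hr' (by omega)
      · exact h.symm.split hB hd0 hfl hr' (by omega)
    · -- the path is joined with another component
      refine h.join hB hwin hd0 hX hfl hr' ?_ (by omega)
      intro a b
      rw [hadj]
      rcases huv' with ⟨rfl, rfl⟩ | ⟨rfl, rfl⟩ <;> tauto
    · -- two other components are joined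
      have hu : (↑(u :: l) : Cycle (Fin n)) ∈ ip P + J := by
        rw [hfl]; exact Multiset.mem_cons_self _ _
      have hv : (↑(v :: m) : Cycle (Fin n)) ∈ ip P + J := by
        rw [hfl]; exact Multiset.mem_cons_of_mem (Multiset.mem_cons_self _ _)
      have hux := (h.out _ hu).1
      have hvx := (h.out _ hv).1
      rw [Cycle.mem_coe_iff, List.mem_cons, not_or] at hux hvx
      obtain ⟨P', J', hfl', hc'⟩ : ∃ P' J', fl' = ip P' + J' ∧ P.card ≤ P'.card + 2 := by
        rcases ip_cons_add hfl with ⟨p, P', rfl, -, h1⟩ | ⟨J', -, h1⟩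
        · rcases ip_cons_add h1.symm with ⟨p', P'', rfl, -, h2⟩ | ⟨J'', -, h2⟩
          · exact ⟨P'', J, h2, by simp⟩
          · exact ⟨P', J'', h2, by simp⟩
        · rcases ip_cons_add h1.symm with ⟨p', P'', rfl, -, h2⟩ | ⟨J'', -, h2⟩
          · exact ⟨P'', J', h2, by simp⟩
          · exact ⟨P, J'', h2, by simp⟩
      have hr2 : D'.regions = ((↑[x, y, z, y] : Cycle (Fin n)) ::ₘ (ip P' +
          ((↑(joinWalk u l v m) : Cycle (Fin n)) ::ₘ J'))) ::ₘ 0 := by
        rw [hr', hfl', Multiset.add_cons]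
        rfl
      have hPS : ∀ p ∈ P', p ∉ ({x, y, z} : Finset (Fin n)) := by
        intro p hp hpS
        have := (iso_out hI hr2 hp).1
        rw [Cycle.mem_coe_iff] at this
        simp only [List.mem_cons, List.not_mem_nil, or_false, not_or] at this
        simp only [Finset.mem_insert, Finset.mem_singleton] at hpS
        tauto
      obtain ⟨p0, hp0⟩ := Multiset.card_pos_iff_exists_mem.1 (show 0 < P'.card by omega)
      have hG : Good D' ({x, y, z} : Finset (Fin n)) (fun _ => 0) (2 + 1) :=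
        good_const hE hI (hPS p0 hp0) Finset.card_le_three
      refine chord_quad hB hwin2 hG hr2 (by simp) (by simp) (by simp) (by simp) h.xy h.yz h.xz
        h.yz.symm h.xy.symm ?_ hPS (by omega)
      rw [hadj]
      have := h.nxz
      tauto
    · -- no chord in another component
      exfalso
      rcases Multiset.mem_add.1 hmem with hm1 | hm1
      · obtain ⟨p, -, hp⟩ := mem_ip.1 hm1
        have := (sing_eq hp).2
        simp at this
      · obtain ⟨p, q, hpq⟩ := h.two _ hm1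
        have hlen := (Cycle.coe_eq_coe.1 hpq).perm.length_eq
        simp only [List.length_cons, List.length_append, List.length_nil] at hlen
        have hl : l = [] := List.length_eq_zero_iff.1 (by omega)
        have hm' : m = [] := List.length_eq_zero_iff.1 (by omega)
        subst hl
        subst hm'
        apply hnadj
        rw [h.reg, adj_sing]
        exact ⟨_, Multiset.mem_cons_of_mem (Multiset.mem_add.2 (Or.inr hm1)), Or.inl ⟨[], rfl⟩⟩

/-- The first move of Spoiler. -/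
theorem first (hINV : T_INV) (hB : T_TB) {M : ℕ}
    (hwin : ∀ D : Drawing (Fin n), Q1 3 M D → Wins 1 2 .spoiler NotHam (.spoiler, 2) D)
    {D : Drawing (Fin n)} (hE : EInv D) (hI : Iso D.regions)
    {P : Multiset (Fin n)} {J : Region (Fin n)} (hreg : D.regions = {ip P + J})
    (hJ : ∀ w ∈ J, ∃ p q : Fin n, w = (↑[p, q] : Cycle (Fin n)))
    (hc : 2 * M + 13 ≤ P.card) : Wins 1 2 .spoiler NotHam (.spoiler, 2) D := by
  obtain ⟨z, hz⟩ := Multiset.card_pos_iff_exists_mem.1 (show 0 < P.card by omega)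
  obtain ⟨P, rfl⟩ := Multiset.exists_cons_of_mem hz
  rw [Multiset.card_cons] at hc
  obtain ⟨x, hx⟩ := Multiset.card_pos_iff_exists_mem.1 (show 0 < P.card by omega)
  obtain ⟨P, rfl⟩ := Multiset.exists_cons_of_mem hx
  rw [Multiset.card_cons] at hc
  obtain ⟨y, hy⟩ := Multiset.card_pos_iff_exists_mem.1 (show 0 < P.card by omega)
  obtain ⟨P, rfl⟩ := Multiset.exists_cons_of_mem hy
  rw [Multiset.card_cons] at hc
  have hx1 := (hI (ip (z ::ₘ x ::ₘ y ::ₘ P) + J) 0 x (ip (z ::ₘ y ::ₘ P) + J) hreg (by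
    rw [Multiset.cons_swap z x, ip_cons, Multiset.cons_add])).2
  have hy1 := (hI (ip (z ::ₘ x ::ₘ y ::ₘ P) + J) 0 y (ip (z ::ₘ x ::ₘ P) + J) hreg (by
    rw [Multiset.cons_swap x y, Multiset.cons_swap z y, ip_cons, Multiset.cons_add])).2
  have hz1 := (hI (ip (z ::ₘ x ::ₘ y ::ₘ P) + J) 0 z (ip (x ::ₘ y ::ₘ P) + J) hreg (by
    rw [ip_cons, Multiset.cons_add])).2
  rw [inR_sing] at hx1 hy1 hz1
  have hmem : ∀ (Q : Multiset (Fin n)) (t : Fin n), t ∈ Q → ∃ w ∈ ip Q + J, t ∈ w :=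
    fun Q t ht => ⟨↑[t], Multiset.mem_add.2 (Or.inl (mem_ip.2 ⟨t, ht, rfl⟩)), by simp⟩
  have hxy : x ≠ y := fun he => hx1 (hmem _ _ (by rw [he]; simp))
  have hzy : z ≠ y := fun he => hz1 (hmem _ _ (by rw [he]; simp))
  have hzx : z ≠ x := fun he => hz1 (hmem _ _ (by rw [he]; simp))
  -- first edge
  have hΦ : ip (z ::ₘ x ::ₘ y ::ₘ P) + J = (↑[x] : Cycle (Fin n)) ::ₘ (↑[y] : Cycle (Fin n)) ::ₘ
      (↑[z] : Cycle (Fin n)) ::ₘ (ip P + J) := by
    rw [ip_cons, ip_cons, ip_cons, Multiset.cons_add, Multiset.cons_add, Multiset.cons_add,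
      Multiset.cons_swap (↑[z] : Cycle (Fin n)), Multiset.cons_swap (↑[z] : Cycle (Fin n))]
  rw [hΦ] at hreg
  have hm1 := RegionMove.join (u := x) (v := y) [] [] ((↑[z] : Cycle (Fin n)) ::ₘ (ip P + J))
  have hn1 : ∀ t, ¬ Adj D.regions x t := not_adj_of_iso (G := 0) hI hreg rfl
  obtain ⟨D₁, hd1, hr1, -⟩ := exists_draw (F := 0) hE hxy (hn1 y) hreg hm1
  have hE1 := (hB n D D₁ hE hd1).1
  have hI1 := (hB n D D₁ hE hd1).2.1 hI
  refine Wins.own 1 D D₁ hd1 ?_
  show Wins 1 2 .spoiler NotHam (.spoiler, 1) D₁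
  -- second edge
  have hj1 : (↑(joinWalk x [] y []) : Cycle (Fin n)) = ↑(y :: [x]) := by
    have := coe_rot [x] [y]
    simpa [joinWalk] using this
  rw [hj1, add_zero] at hr1
  have hm2 := RegionMove.join (u := y) (v := z) [x] [] (ip P + J)
  have hn2 : ¬ Adj D₁.regions y z := by
    intro ha
    exact not_adj_of_iso (G := 0) hI1 (by rw [hr1, Multiset.cons_swap]; rfl) rfl y ha.symm
  obtain ⟨D₂, hd2, hr2, -⟩ := exists_draw (F := 0) hE1 hzy.symm hn2 hr1 hm2
  refine Wins.own 0 D₁ D₂ hd2 ?_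
  show Wins 1 2 .spoiler NotHam (.builder, 1) D₂
  have hj2 : (↑(joinWalk y [x] z []) : Cycle (Fin n)) = ↑[x, y, z, y] := by
    have := coe_rot [y, z, y] [x]
    simpa [joinWalk] using this
  rw [hj2, add_zero] at hr2
  refine SB.win (x := x) (y := y) (z := z) (P := P) (J := J) hINV hB hwin ?_ (by omega)
  refine ⟨(hB n D₁ D₂ hE1 hd2).1, (hB n D₁ D₂ hE1 hd2).2.1 hI1, hr2, hxy, hzy.symm, hzx.symm, ?_, hJ⟩
  intro w hw
  have hsub : ∀ Q : Multiset (Fin n), P ≤ Q → w ∈ ip Q + J := by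
    intro Q hQ
    rcases Multiset.mem_add.1 hw with h | h
    · exact Multiset.mem_add.2 (Or.inl (Multiset.mem_of_le (Multiset.map_le_map hQ) h))
    · exact Multiset.mem_add.2 (Or.inr h)
  refine ⟨fun h => hx1 ⟨w, hsub _ ?_, h⟩, fun h => hy1 ⟨w, hsub _ ?_, h⟩,
    fun h => hz1 ⟨w, hsub _ ?_, h⟩⟩
  · exact (Multiset.le_cons_self _ _).trans (Multiset.le_cons_self _ _)
  · exact (Multiset.le_cons_self _ _).trans (Multiset.le_cons_self _ _)
  · exact (Multiset.le_cons_self _ _).trans (Multiset.le_cons_self _ _)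

theorem start_e (n : ℕ) : EInv (start n) := by
  intro u v huv
  constructor
  · intro h
    exact absurd h (Set.notMem_empty _)
  · intro h
    exfalso
    unfold start at h
    rw [adj_sing] at h
    obtain ⟨w, hw, hd⟩ := h
    obtain ⟨p, -, rfl⟩ := Multiset.mem_map.1 hw
    rcases hd with hd | hd <;> simp [isDart_coe] at hd

theorem start_i (n : ℕ) : Iso (start n).regions := by
  intro Φ G v R hF hΦ
  have h1 : Φ = ip (Finset.univ : Finset (Fin n)).val ∧ G = 0 := by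
    have h2 : (start n).regions = {ip (Finset.univ : Finset (Fin n)).val} := rfl
    rw [h2, Multiset.singleton_eq_cons_iff] at hF
    exact ⟨hF.1.symm, hF.2⟩
  obtain ⟨rfl, rfl⟩ := h1
  refine ⟨inR_zero v, ?_⟩
  obtain ⟨-, Q, hQ, rfl⟩ := ip_inj_cons hΦ
  rw [inR_sing, inR_ip]
  have := (Finset.univ : Finset (Fin n)).nodup
  rw [hQ, Multiset.nodup_cons] at this
  exact this.1

theorem te (hINV : T_INV) (hB : T_TB) : T_TE := by
  intro m
  refine ⟨2 * m + 20, fun n hn hwin t => ?_⟩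
  have hcard : (Finset.univ : Finset (Fin n)).val.card = n := by
    rw [Finset.card_val, Finset.card_univ, Fintype.card_fin]
  have hE := start_e n
  have hI := start_i n
  have hreg : (start n).regions = {ip (Finset.univ : Finset (Fin n)).val + 0} := by
    rw [add_zero]; rfl
  cases t with
  | spoiler =>
    exact first hINV hB hwin hE hI hreg (fun w hw => absurd hw (Multiset.notMem_zero _))
      (by omega)
  | builder =>
    refine Wins.opp .builder (by decide) 0 _ ?_ ?_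
    · -- there is a move
      obtain ⟨x, hx⟩ := Multiset.card_pos_iff_exists_mem.1
        (show 0 < (Finset.univ : Finset (Fin n)).val.card by omega)
      obtain ⟨P, hP⟩ := Multiset.exists_cons_of_mem hx
      rw [hP, ip_cons, Multiset.cons_add] at hreg
      rw [hP, Multiset.card_cons] at hcard
      exact exists_move (F := 0) hE hI hreg (by omega)
    · intro D' hd
      show Wins 1 2 .spoiler NotHam (.spoiler, 2) D'
      have hE' := (hB n _ D' hE hd).1
      have hI' := (hB n _ D' hE hd).2.1 hI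
      obtain ⟨u, v, huv, -, -, Φ, Ψ, F, hr, hr', hm⟩ := hd
      have h1 : Φ = ip (Finset.univ : Finset (Fin n)).val ∧ F = 0 := by
        have h2 : (start n).regions = {ip (Finset.univ : Finset (Fin n)).val} := rfl
        rw [h2, Multiset.singleton_eq_cons_iff] at hr
        exact ⟨hr.1.symm, hr.2⟩
      obtain ⟨hΦ, rfl⟩ := h1
      rw [add_zero] at hr'
      cases hm with
      | join l m' R =>
        obtain ⟨rfl, Q, hQ, h3⟩ := ip_inj_cons hΦ.symm
        obtain ⟨rfl, Q', rfl, rfl⟩ := ip_inj_cons h3.symm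
        rw [hQ, Multiset.card_cons, Multiset.card_cons] at hcard
        refine first hINV hB hwin hE' hI' (P := Q') (J := {(↑[u, v] : Cycle (Fin n))}) ?_ ?_
          (by omega)
        · rw [hr', add_comm, Multiset.singleton_add]
          simp [joinWalk]
        · intro w hw
          exact ⟨u, v, Multiset.mem_singleton.1 hw⟩
      | split l m' R₁ R₂ =>
        have := (ip_inj_cons hΦ.symm).1
        simp at this

/-- TE: the opening of the `1 : 2` game. -/
theorem pf_TE : T_TE := te Pool.Agent.H33.DG.INV.pf_INV Pool.Agent.H74.DG.TB.pf_TB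

end Pool.Agent.H74.DG.TE
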